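import Pool.Agent.Mg.F85ce7b.G0f43d8

namespace Pool.Agent.MP_85ce7b_lc

open Cardinal

theorem scOn_lift {κ : Cardinal.{0}} {S : Type} {T : Type 1} (e : S ≃ T) (h : SCOn κ S) :
    SCOn (lift.{1} κ) T := by
  obtain ⟨U, h₁, h₂, h₃, h₄⟩ := h
  refine ⟨U.map (Set.image e), ?_, fun t => ?_, fun F hF hU => ?_, fun f hf => ?_⟩
  · rw [Ultrafilter.mem_map]
    refine Filter.mem_of_superset h₁ fun X hX => ?_
    have := mk_image_eq_lift e X e.injective
    simp only [lift_uzero] at this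
    show Cardinal.mk (e '' X) < lift.{1} κ
    rw [this]
    exact lift_lt.2 hX
  · rw [Ultrafilter.mem_map]
    exact Filter.mem_of_superset (h₂ (e.symm t)) fun X hX => ⟨_, hX, by simp⟩
  · rw [Ultrafilter.mem_map]
    have hc : Cardinal.mk ((fun Z => Set.image e ⁻¹' Z) '' F) < κ := by
      have := mk_image_le_lift (f := fun Z : Set (Set T) => Set.image e ⁻¹' Z) (s := F)
      simp only [lift_uzero] at this
      exact lift_lt.1 (this.trans_lt hF)
    refine Filter.mem_of_superset (h₃ _ hc ?_) fun X hX Z hZ => hX _ ⟨Z, hZ, rfl⟩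
    rintro _ ⟨Z, hZ, rfl⟩
    exact hU Z hZ
  · rw [Ultrafilter.mem_map] at hf
    obtain ⟨t, ht⟩ := h₄ (fun X => e.symm (f (e '' X))) (Filter.mem_of_superset hf fun X hX => by
      obtain ⟨a, ha, h⟩ := hX
      show e.symm (f (e '' X)) ∈ X
      rw [← h, e.symm_apply_apply]
      exact ha)
    refine ⟨e t, ?_⟩
    rw [Ultrafilter.mem_map]
    exact Filter.mem_of_superset ht fun X hX => e.symm_apply_eq.1 hX

end Pool.Agent.MP_85ce7b_lc

namespace Pool.Agent.Results.MP_85ce7b_lc.LSTNth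

open Pool.Agent.MP_c6cf52_lc Pool.Agent.MP_85ce7b_lc

theorem result (κ : Cardinal.{0}) (hκ : Cardinal.aleph0 < κ) (sc : ∀ T : Type, SCOn κ T)
    (α γ : Ordinal.{1}) (hα : 0 < α) (hα' : α < Ordinal.omega 1) (hγ : 0 < γ)
    (hγ' : γ < Ordinal.omega 1) :
    ∃ (M : Type 3) (E : M → M → Prop), WellFounded E ∧ IsZFC E ∧
      (∃ a c, IsOrd E a ∧ Enum E (fun x => E x a) α ∧ IsOrd E c ∧ Enum E (fun x => E x c) γ) ∧
      ∃ k, Nth E α γ k ∧ LST E α true k ∧ LST E α false k := by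
  refine main (Cardinal.lift.{1} κ) Cardinal.univ.{0, 1} Cardinal.IsInaccessible.univ
    (by simpa using hκ) (Cardinal.lift_lt_univ κ) (fun T hT => ?_) α γ hα hα' hγ hγ'
  have : Small.{0} T := Cardinal.small_iff_lift_mk_lt_univ.2 (by simpa using hT)
  exact scOn_lift (equivShrink.{0} T).symm (sc _)

end Pool.Agent.Results.MP_85ce7b_lc.LSTNth
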